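import Pool.Agent.helper35.MR.SpecA

set_option autoImplicit false

open Finset

namespace Pool.Agent.helper35.MR

open Pool.Agent.RRank

lemma B3_tie {n : ℕ} {K : Type} [Field K] (f : Ordering → K) (hf : f .lt = f .gt) (i k : Fin n) :
    f (cmp i k) - f .gt = if i = k then f .eq - f .gt else 0 := by
  rcases lt_trichotomy i k with h | h | h
  · rw [h.cmp_eq_lt, if_neg h.ne, hf, sub_self]
  · subst h
    rw [cmp_self_eq_eq, if_pos rfl]
  · rw [h.cmp_eq_gt, if_neg h.ne', sub_self]

theorem B3 (hBX : BX_stmt) : B3_stmt := by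
  intro K _ V a b c δ hV hδ hα hβ hγ hs n hn
  by_contra hG
  obtain ⟨t, s, a', b', c', hviol, t0, t1, t2, t3, t4, t5, t6⟩ := hBX K V a b c δ hV hδ n hG
  have t5' : ∀ i k, t (some i) none (some k) = if i = k then c .eq - c .gt else 0 := fun i k => by
    rw [t5, B3_tie c hγ]
  have t6' : ∀ j k, t none (some j) (some k) = if j = k then b .eq - b .gt else 0 := fun j k => by
    rw [t6, B3_tie b hβ]
  have t1' : ∀ i, t (some i) none none = a .gt - a .lt := fun i => by rw [t1, hγ]; ring
  have t2' : ∀ j, t none (some j) none = 0 := fun j => by rw [t2, hβ]; ring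
  -- `a'` does not vanish
  have hex : ∃ i, a' i ≠ 0 := by
    by_contra hne
    push Not at hne
    have h7 := hviol.E7
    simp only [hne, t0, t2', t3, t6', zero_mul, mul_zero, Finset.sum_const_zero, add_zero] at h7
    have h8 : ∀ j, ∑ k, b' j * c' k * (if j = k then b .eq - b .gt else 0) = 0 := by
      intro j
      rw [Finset.sum_eq_single j]
      · by_cases hj : s j = 1
        · rw [hviol.sc j (by rw [hj]; decide)]
          ring
        · rw [hviol.sb j hj]
          ring
      · intro k _ hk
        rw [if_neg (Ne.symm hk), mul_zero]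
      · intro h
        exact absurd (Finset.mem_univ _) h
    simp only [h8, Finset.sum_const_zero, add_zero] at h7
    exact hs h7
  obtain ⟨i₀, hi₀⟩ := hex
  have hs0 : s i₀ = 0 := by
    by_contra h
    exact hi₀ (hviol.sa i₀ h)
  have e3 : b .eq - b .gt + δ * a' i₀ = 0 := by
    have := hviol.E3 i₀ i₀ (by rw [hs0]; decide) (by rw [hs0]; decide)
    rwa [t6', if_pos rfl, if_pos rfl] at this
  have hb : b .eq - b .gt ≠ 0 := by
    intro h
    rw [h, zero_add] at e3
    exact (mul_ne_zero hδ hi₀) e3
  have hc : c .eq - c .gt = 0 := by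
    have h6 := hviol.E6 i₀ (by rw [hs0]; decide)
    simp only [t3, t5', t6'] at h6
    rw [Finset.sum_eq_single i₀, Finset.sum_eq_single i₀, if_pos rfl, if_pos rfl,
      hviol.sb i₀ (by rw [hs0]; decide), zero_mul, zero_add, add_zero] at h6
    · exact (mul_eq_zero.1 h6).resolve_left hi₀
    · intro k _ hk; rw [if_neg hk, mul_zero]
    · intro h; exact absurd (Finset.mem_univ _) h
    · intro k _ hk; rw [if_neg hk, mul_zero]
    · intro h; exact absurd (Finset.mem_univ _) h
  have hb' : ∀ j, b' j = 0 := by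
    intro j
    by_cases hj : s j = 1
    · have := hviol.E2 j j (by rw [hj]; decide) (by rw [hj]; decide)
      rw [t5', if_pos rfl, if_pos rfl, hc, zero_add] at this
      exact (mul_eq_zero.1 this).resolve_left hδ
    · exact hviol.sb j hj
  have hall : ∀ i, s i = 0 := by
    intro i
    by_contra hi
    have h4 := hviol.E4 i hi
    simp only [t1', t5', hb', hc, ite_self, mul_zero, zero_mul, Finset.sum_const_zero,
      add_zero] at h4
    exact hα (sub_eq_zero.1 h4).symm
  have hc' : ∀ k, c' k = 0 := fun k => hviol.sc k (by rw [hall]; decide)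
  have ha' : ∀ i, a' i = a' i₀ := by
    intro i
    have := hviol.E3 i i (by rw [hall]; decide) (by rw [hall]; decide)
    rw [t6', if_pos rfl, if_pos rfl] at this
    have h9 : δ * (a' i - a' i₀) = 0 := by linear_combination this - e3
    exact sub_eq_zero.1 ((mul_eq_zero.1 h9).resolve_left hδ)
  have h5 : ∀ j : Fin n, ∑ i : Fin n, (a (cmp i j) - a .gt) = 0 := by
    intro j
    have h5 := hviol.E5 j (by rw [hall]; decide)
    simp only [t2', t4, hc', zero_mul, Finset.sum_const_zero, add_zero, zero_add] at h5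
    have h6 : ∑ i : Fin n, a' i * (a (cmp i j) - a .gt) = a' i₀ * ∑ i : Fin n, (a (cmp i j) - a .gt) := by
      rw [Finset.mul_sum]
      exact Finset.sum_congr rfl fun i _ => by rw [ha' i]
    rw [h6] at h5
    exact (mul_eq_zero.1 h5).resolve_left hi₀
  have q0 := h5 ⟨0, by omega⟩
  have q1 := h5 ⟨1, by omega⟩
  rw [Finset.sum_eq_single (⟨0, by omega⟩ : Fin n)] at q0
  · rw [Finset.sum_eq_add (⟨0, by omega⟩ : Fin n) (⟨1, by omega⟩ : Fin n)] at q1
    · rw [cmp_self_eq_eq] at q0 q1
      rw [(show (⟨0, by omega⟩ : Fin n) < ⟨1, by omega⟩ from Nat.zero_lt_one).cmp_eq_lt, q0,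
        add_zero] at q1
      exact hα (sub_eq_zero.1 q1)
    · intro h
      exact absurd (Fin.mk.inj_iff.1 h) (by norm_num)
    · rintro i - ⟨hi0, hi1⟩
      have : (⟨1, by omega⟩ : Fin n) < i := by
        have h1 : (i : ℕ) ≠ 0 := fun h => hi0 (Fin.ext h)
        have h2 : (i : ℕ) ≠ 1 := fun h => hi1 (Fin.ext h)
        show 1 < (i : ℕ)
        omega
      rw [this.cmp_eq_gt, sub_self]
    · intro h; exact absurd (Finset.mem_univ _) h
    · intro h; exact absurd (Finset.mem_univ _) h
  · intro i _ hi
    have : (⟨0, by omega⟩ : Fin n) < i := by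
      have h1 : (i : ℕ) ≠ 0 := fun h => hi (Fin.ext h)
      show 0 < (i : ℕ)
      omega
    rw [this.cmp_eq_gt, sub_self]
  · intro h; exact absurd (Finset.mem_univ _) h

end Pool.Agent.helper35.MR
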