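import Pool.Agent.helper35.MR.SpecA

/-!
# mr:KB2 (helper46): form K, `γ = 0 ≠ β`, `V(yxz) = V(zxy) = 0`
-/

set_option autoImplicit false

open Finset

namespace Pool.Agent.helper35.MR

open Pool.Agent.RRank

theorem KB2_sum {K : Type} [Field K] (a : Ordering → K) (n : ℕ) :
    (∑ i : Fin (n + 2), (a (cmp i 1) - a .gt)) - ∑ i : Fin (n + 2), (a (cmp i 0) - a .gt) =
      a .lt - a .gt := by
  rw [← Finset.sum_sub_distrib, Fin.sum_univ_succ, Fin.sum_univ_succ]
  have h1 : cmp (0 : Fin (n + 2)) 1 = .lt := by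
    rw [cmp_eq_lt_iff]
    exact Fin.zero_lt_one
  have h2 : cmp (0 : Fin (n + 2)) 0 = .eq := by rw [cmp_eq_eq_iff]
  have h3 : cmp (Fin.succ (0 : Fin (n + 1))) (1 : Fin (n + 2)) = .eq := by
    rw [cmp_eq_eq_iff]
    rfl
  have h4 : cmp (Fin.succ (0 : Fin (n + 1))) (0 : Fin (n + 2)) = .gt := by
    rw [cmp_eq_gt_iff]
    exact Fin.succ_pos _
  have h5 : ∀ i : Fin n, (a (cmp (Fin.succ (Fin.succ i)) (1 : Fin (n + 2))) - a .gt) -
      (a (cmp (Fin.succ (Fin.succ i)) (0 : Fin (n + 2))) - a .gt) = 0 := by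
    intro i
    have h6 : cmp (Fin.succ (Fin.succ i)) (1 : Fin (n + 2)) = .gt := by
      rw [cmp_eq_gt_iff, Fin.lt_def]
      simp
    have h7 : cmp (Fin.succ (Fin.succ i)) (0 : Fin (n + 2)) = .gt := by
      rw [cmp_eq_gt_iff]
      exact Fin.succ_pos _
    rw [h6, h7]
    ring
  rw [h1, h2, h3, h4, Finset.sum_eq_zero fun i _ => h5 i]
  ring

theorem KB2 (hC : CHB_stmt) (hL : LI_stmt) (hE : EXT_stmt) (hO : OPT_stmt) (hT : KT_stmt) :
    KB2_stmt := by
  intro K _ V a b c κ hV hK hκ hc hb h102 h120 n hn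
  obtain ⟨n, rfl⟩ : ∃ k, n = k + 2 := ⟨n - 2, by omega⟩
  by_contra hG
  have hF : ¬ Full3 (fun i j k => V (kposXY 0 i) (kposXY 1 j) (kposZ (n := n + 2) 2 k)) :=
    fun h => hG (hO K V (n + 2) _ _ _ h)
  obtain ⟨l1, l2, l3⟩ := hL K (n + 2)
  obtain ⟨t, ht⟩ : ∃ t : Option (Fin (n + 2)) → Option (Fin (n + 2)) → Option (Fin (n + 2)) → K,
    t = fun i j k => ev3 (fun i j k => V (kposXY 0 i) (kposXY 1 j) (kposZ (n := n + 2) 2 k))
      (bas i) (bas j) (basZ k) := ⟨_, rfl⟩
  have hF2 : ¬ Full3 t := fun h => hF (hC K _ _ bas bas basZ l1 l1 l2 (ht ▸ h))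
  obtain ⟨t1, t2, t3, t4, t5, t6, t7, t8⟩ := hT K V a b c κ hK (n + 2) 0 1 2 (by norm_num)
    (by norm_num) (by norm_num) t (fun i j k => by rw [ht])
  obtain ⟨s, a', b', c', hv⟩ := hE K (n + 2) t κ hκ t8 hF2
  have e102 := hK 1 0 2 (by norm_num) (by norm_num)
  have e120 := hK 1 2 0 (by norm_num) (by norm_num)
  have e012 := hK 0 1 2 (by norm_num) (by norm_num)
  rw [h102] at e102
  rw [h120] at e120
  have c1 : cmp (1 : ℤ) 0 = .gt := by decide
  have c2 : cmp (0 : ℤ) 2 = .lt := by decide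
  have c3 : cmp (1 : ℤ) 2 = .lt := by decide
  have c4 : cmp (2 : ℤ) 0 = .gt := by decide
  have c5 : cmp (0 : ℤ) 1 = .lt := by decide
  rw [c1, c2, c3, if_neg (by norm_num)] at e102
  rw [c1, c3, c4, if_neg (by norm_num)] at e120
  rw [c2, c3, c5, if_neg (by norm_num)] at e012
  have hα : a .lt - a .gt = b .lt - b .gt := by
    rw [hc] at e102
    linear_combination e102 - e120
  have hα0 : a .lt - a .gt ≠ 0 := by
    rw [hα]
    exact sub_ne_zero.2 hb
  have hb' : ∀ i, b' i = 0 := by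
    intro i
    by_cases h : s i = 1
    · have h2 := hv.E2 i i (by rw [h]; decide) (by rw [h]; decide)
      rw [t6, if_pos rfl, if_pos rfl, hc, sub_self, zero_add] at h2
      exact (mul_eq_zero.1 h2).resolve_left hκ
    · exact hv.sb i h
  have hs : ∀ i, s i = 0 := by
    intro i
    by_contra h
    have h4 := hv.E4 i h
    rw [t2] at h4
    have h5 : ∑ j, b' j * t (some i) (some j) none = 0 :=
      Finset.sum_eq_zero fun j _ => by rw [hb' j, zero_mul]
    have h6 : ∑ k, c' k * t (some i) none (some k) = 0 :=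
      Finset.sum_eq_zero fun k _ => by
        rw [t6, hc, sub_self, ite_self, mul_zero]
    rw [h5, h6, e012] at h4
    apply hα0
    rw [← hc] at h4
    linear_combination -h4
  have hc' : ∀ i, c' i = 0 := fun i => hv.sc i (by rw [hs i]; decide)
  have ha' : ∀ i, b .lt - b .gt + κ * a' i = 0 := by
    intro i
    have h := hv.E3 i i (by rw [hs i]; decide) (by rw [hs i]; decide)
    rw [t7, if_pos rfl, if_pos rfl] at h
    exact h
  have h5 : ∀ j : Fin (n + 2), κ * (a .lt + b .gt + c .lt - V 0 1 2) -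
      (b .lt - b .gt) * ∑ i : Fin (n + 2), (a (cmp i j) - a .gt) = 0 := by
    intro j
    have h := hv.E5 j (by rw [hs j]; decide)
    have h6 : ∑ k, c' k * t none (some j) (some k) = 0 :=
      Finset.sum_eq_zero fun k _ => by rw [hc' k, zero_mul]
    rw [t3, h6, add_zero] at h
    have h7 : κ * ∑ i, a' i * t (some i) (some j) none =
        - ((b .lt - b .gt) * ∑ i, (a (cmp i j) - a .gt)) := by
      rw [Finset.mul_sum, Finset.mul_sum, ← Finset.sum_neg_distrib]
      refine Finset.sum_congr rfl fun i _ => ?_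
      rw [t5, e012]
      linear_combination (a (cmp i j) - a .gt) * ha' i
    linear_combination κ * h - h7
  have h50 := h5 0
  have h51 := h5 1
  have h8 := KB2_sum a n
  have h9 : (b .lt - b .gt) * (a .lt - a .gt) = 0 := by
    rw [← h8]
    linear_combination h50 - h51
  rw [← hα] at h9
  exact hα0 (by simpa using h9)

end Pool.Agent.helper35.MR
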