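import Pool.Agent.helper35.MR.SpecA

set_option autoImplicit false

open Finset

namespace Pool.Agent.helper35.MR

open Pool.Agent.RRank

section
variable {K : Type} [Field K] {Q : Fin 3 → Type}

/-- for the partition into singletons -/
lemma R1_rank1 {R : Set (IndexPartition 3)} (hR : ∀ P ∈ R, P.parts.card = 3)
    {t : ((α : Fin 3) → Q α) → K} (h : RankLEOne R t) :
    ∃ f : (β : Fin 3) → Q β → K, ∀ x, t x = ∏ β, f β (x β) := by
  classical
  obtain ⟨P, hP, b, hb, ht⟩ := rankLEOne_iff.1 h
  have hsing : P.parts = univ.image (fun β : Fin 3 => ({β} : Finset (Fin 3))) := by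
    have hc := hR P hP
    have hsum := P.sum_card_parts
    rw [Finset.card_univ, Fintype.card_fin] at hsum
    have h1 : ∀ I ∈ P.parts, 1 ≤ I.card := fun I hI =>
      Finset.card_pos.2 (P.nonempty_of_mem_parts hI)
    have h2 : ∀ I ∈ P.parts, 1 = I.card := by
      apply (Finset.sum_eq_sum_iff_of_le h1).1
      rw [hsum, Finset.sum_const, hc]
      rfl
    have h3 : P.parts ⊆ univ.image (fun β : Fin 3 => ({β} : Finset (Fin 3))) := by
      intro I hI
      obtain ⟨β, hβ⟩ := Finset.card_eq_one.1 (h2 I hI).symm
      rw [Finset.mem_image]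
      exact ⟨β, Finset.mem_univ _, hβ.symm⟩
    apply Finset.eq_of_subset_of_card_le h3
    rw [hc]
    refine Finset.card_image_le.trans ?_
    simp
  by_cases hne : Nonempty ((α : Fin 3) → Q α)
  · obtain ⟨x₀⟩ := hne
    refine ⟨fun β q => b {β} (Function.update x₀ β q), fun x => ?_⟩
    rw [ht, hsing, Finset.prod_image (by
      intro β _ β' _ h
      exact Finset.singleton_injective h)]
    refine Finset.prod_congr rfl fun β _ => ?_
    apply hb {β} (by rw [hsing]; exact Finset.mem_image_of_mem _ (Finset.mem_univ β))
    intro α hα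
    rw [Finset.coe_singleton, Set.mem_singleton_iff] at hα
    subst hα
    rw [Function.update_self]
  · exact ⟨fun _ _ => 0, fun x => (hne ⟨x⟩).elim⟩

lemma R1_rank1' {R : Set (IndexPartition 3)} (hR : R.Nonempty) (f : (β : Fin 3) → Q β → K) :
    RankLEOne R (fun x : (α : Fin 3) → Q α => ∏ β, f β (x β)) := by
  classical
  obtain ⟨P, hP⟩ := hR
  refine rankLEOne_iff.2 ⟨P, hP, fun I x => ∏ β ∈ I, f β (x β), ?_, ?_⟩
  · intro I _ x y hxy
    refine Finset.prod_congr rfl fun β hβ => ?_
    rw [hxy β (by exact_mod_cast hβ)]
  · intro x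
    have h1 : (univ : Finset (Fin 3)) = P.parts.biUnion id := P.biUnion_parts.symm
    conv_lhs => rw [h1]
    rw [Finset.prod_biUnion]
    · rfl
    · intro I hI J hJ hIJ
      exact P.disjoint hI hJ hIJ

/-- one coordinate after the other -/
lemma R1_extend {κ : Fin 3 → Type} [∀ α, Fintype (κ α)] (T : ((α : Fin 3) → Q α) → K)
    (a : (α : Fin 3) → κ α → Q α) (c : (α : Fin 3) → Q α → κ α → K)
    (hc : ∀ (α : Fin 3) (x : (β : Fin 3) → Q β), T x = ∑ i, c α (x α) i * T (Function.update x α (a α i)))
    (r : ℕ) (f : Fin r → (β : Fin 3) → Q β → K)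
    (hf : ∀ x : (β : Fin 3) → Q β, (∀ β, ∃ i, x β = a β i) → T x = ∑ s, ∏ β, f s β (x β))
    (S : Finset (Fin 3)) : ∃ f' : Fin r → (β : Fin 3) → Q β → K,
      ∀ x : (β : Fin 3) → Q β, (∀ β ∉ S, ∃ i, x β = a β i) → T x = ∑ s, ∏ β, f' s β (x β) := by
  classical
  induction S using Finset.induction_on with
  | empty => exact ⟨f, fun x hx => hf x fun β => hx β (Finset.notMem_empty β)⟩
  | insert α S hα ih =>
    obtain ⟨g, hg⟩ := ih
    refine ⟨fun s => Function.update (g s) α (fun q => ∑ i, c α q i * g s α (a α i)),
      fun x hx => ?_⟩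
    rw [hc α x]
    have h1 : ∀ i, T (Function.update x α (a α i)) =
        ∑ s, g s α (a α i) * ∏ β ∈ univ.erase α, g s β (x β) := by
      intro i
      rw [hg]
      · refine Finset.sum_congr rfl fun s _ => ?_
        rw [← Finset.mul_prod_erase univ _ (Finset.mem_univ α), Function.update_self]
        congr 1
        refine Finset.prod_congr rfl fun β hβ => ?_
        rw [Function.update_of_ne (Finset.ne_of_mem_erase hβ)]
      · intro β hβ
        by_cases h : β = α
        · subst h
          exact ⟨i, Function.update_self _ _ _⟩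
        · rw [Function.update_of_ne h]
          exact hx β (by simp [h, hβ])
    simp only [h1, Finset.mul_sum]
    rw [Finset.sum_comm]
    refine Finset.sum_congr rfl fun s _ => ?_
    rw [← Finset.mul_prod_erase univ (fun β => Function.update (g s) α _ β (x β))
      (Finset.mem_univ α), Function.update_self, Finset.sum_mul]
    refine Finset.sum_congr rfl fun i _ => ?_
    rw [mul_assoc]
    congr 2
    refine Finset.prod_congr rfl fun β hβ => ?_
    rw [Function.update_of_ne (Finset.ne_of_mem_erase hβ)]

/-- independent rows: an invertible square submatrix -/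
lemma R1_cols {Y : Type} {l : ℕ} (v : Fin l → Y → K) (hv : LinearIndependent K v) :
    ∃ y : Fin l → Y, IsUnit (Matrix.of fun i j => v i (y j)) := by
  classical
  obtain ⟨κ, a, ha, hsp, hli⟩ := exists_linearIndependent' K (fun (y : Y) (i : Fin l) => v i y)
  have htop : Submodule.span K (Set.range (fun (y : Y) (i : Fin l) => v i y)) = ⊤ := by
    by_contra hne
    obtain ⟨φ, hφ, hle⟩ := Submodule.exists_le_ker_of_lt_top _ (lt_top_iff_ne_top.2 hne)
    apply hφ
    have h1 : ∀ w : Fin l → K, φ w = ∑ i, w i * φ (Pi.single i 1) := by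
      intro w
      conv_lhs => rw [← Finset.univ_sum_single w]
      rw [map_sum]
      refine Finset.sum_congr rfl fun i _ => ?_
      rw [show Pi.single i (w i) = w i • (Pi.single i 1 : Fin l → K) by
        rw [← Pi.single_smul, smul_eq_mul, mul_one], map_smul, smul_eq_mul]
    have h2 : ∑ i, φ (Pi.single i 1) • v i = 0 := by
      funext y
      have h3 := hle (Submodule.subset_span ⟨y, rfl⟩)
      rw [LinearMap.mem_ker, h1] at h3
      rw [Finset.sum_apply, Pi.zero_apply, ← h3]
      refine Finset.sum_congr rfl fun i _ => ?_
      rw [Pi.smul_apply, smul_eq_mul, mul_comm]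
    have h4 := Fintype.linearIndependent_iff.1 hv _ h2
    apply LinearMap.ext
    intro w
    rw [h1]
    simp [h4]
  rw [htop] at hsp
  let B : Module.Basis κ K (Fin l → K) := Module.Basis.mk hli hsp.ge
  have hfin : Finite κ := Module.Finite.finite_basis B
  haveI := Fintype.ofFinite κ
  have hcard : Fintype.card κ = l := by
    rw [← Module.finrank_eq_card_basis B, Module.finrank_fin_fun]
  let e : Fin l ≃ κ := (Fintype.equivFinOfCardEq hcard).symm
  refine ⟨fun j => a (e j), ?_⟩
  rw [← Matrix.linearIndependent_cols_iff_isUnit]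
  exact hli.comp e e.injective

lemma R1_le_rank {R : Set (IndexPartition 3)} {Q' : Fin 3 → Type} {T : ((α : Fin 3) → Q' α) → K}
    {l : ℕ} (h : ∀ k, SumOf R T k → l ≤ k) : (l : ℕ∞) ≤ rank R T := by
  refine le_sInf ?_
  rintro _ ⟨k, rfl, hk⟩
  exact_mod_cast h k hk

end

theorem R1 : R1_stmt := by
  classical
  intro R hRne hR K _ Q _ T l hl
  -- bases of the rows
  have hex : ∀ α : Fin 3, ∃ (κ : Type) (_ : Fintype κ) (a : κ → Q α), Function.Injective a ∧
      LinearIndependent K (fun i (x : (β : Fin 3) → Q β) => T (Function.update x α (a i))) ∧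
      ∃ c : Q α → κ → K, ∀ x : (β : Fin 3) → Q β,
        T x = ∑ i, c (x α) i * T (Function.update x α (a i)) := by
    intro α
    obtain ⟨κ, a, ha, hsp, hli⟩ := exists_linearIndependent' K
      (fun (q : Q α) (x : (β : Fin 3) → Q β) => T (Function.update x α q))
    haveI : Finite κ := Finite.of_injective a ha
    letI := Fintype.ofFinite κ
    refine ⟨κ, Fintype.ofFinite κ, a, ha, hli, ?_⟩
    have h1 : ∀ q : Q α, ∃ c : κ → K, ∀ x : (β : Fin 3) → Q β,
        T (Function.update x α q) = ∑ i, c i * T (Function.update x α (a i)) := by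
      intro q
      have h2 : (fun (x : (β : Fin 3) → Q β) => T (Function.update x α q)) ∈
          Submodule.span K (Set.range ((fun (q : Q α) (x : (β : Fin 3) → Q β) =>
            T (Function.update x α q)) ∘ a)) := by
        rw [hsp]
        exact Submodule.subset_span ⟨q, rfl⟩
      obtain ⟨c, hc⟩ := (Submodule.mem_span_range_iff_exists_fun _).1 h2
      refine ⟨c, fun x => ?_⟩
      have h3 := congrFun hc x
      rw [Finset.sum_apply] at h3
      rw [← h3]
      rfl
    choose c hc using h1
    refine ⟨c, fun x => ?_⟩
    have h4 := hc (x α) x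
    rwa [Function.update_eq_self] at h4
  choose κ hκ a ha hli c hc using hex
  by_cases hbig : ∃ α, l < @Fintype.card (κ α) (hκ α)
  · obtain ⟨α, hα⟩ := hbig
    letI := hκ α
    -- `l` independent rows
    obtain ⟨e⟩ : Nonempty (Fin l ↪ κ α) := by
      apply Function.Embedding.nonempty_of_card_le
      rw [Fintype.card_fin]
      exact hα.le
    obtain ⟨y, hy⟩ := R1_cols _ ((hli α).comp e e.injective)
    set W : Fin l × Fin l → (β : Fin 3) → Q β :=
      fun p => Function.update (y p.2) α (a α (e p.1)) with hW
    refine ⟨fun β => univ.image (fun p => W p β), ?_, ?_⟩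
    · intro β
      by_cases h : β = α
      · subst h
        have h1 : univ.image (fun p => W p β) ⊆ univ.image (fun i : Fin l => a β (e i)) := by
          intro q hq
          rw [Finset.mem_image] at hq
          obtain ⟨p, -, hp⟩ := hq
          rw [Finset.mem_image]
          exact ⟨p.1, Finset.mem_univ _, by rw [← hp, hW]; exact (Function.update_self _ _ _).symm⟩
        refine (Finset.card_le_card h1).trans (Finset.card_image_le.trans ?_)
        simp
      · have h1 : univ.image (fun p => W p β) ⊆ univ.image (fun j : Fin l => y j β) := by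
          intro q hq
          rw [Finset.mem_image] at hq
          obtain ⟨p, -, hp⟩ := hq
          rw [Finset.mem_image]
          exact ⟨p.2, Finset.mem_univ _, by rw [← hp, hW]; exact (Function.update_of_ne h _ _).symm⟩
        refine (Finset.card_le_card h1).trans (Finset.card_image_le.trans ?_)
        simp
    · apply R1_le_rank
      rintro k ⟨t, ht, hT⟩
      choose f hf using fun s => R1_rank1 hR (ht s)
      have hmem : ∀ p β, W p β ∈ univ.image (fun p => W p β) := fun p β =>
        Finset.mem_image_of_mem _ (Finset.mem_univ p)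
      have hm : ∀ i j : Fin l, (i, j) = (i, j) := fun _ _ => rfl
      let A : Matrix (Fin l) (Fin k) K := Matrix.of fun i s =>
        if h : ∃ q : (univ.image (fun p => W p α)), (q : Q α) = a α (e i) then
          f s α h.choose else 0
      let B : Matrix (Fin k) (Fin l) K := Matrix.of fun s j =>
        ∏ β : {β : Fin 3 // β ≠ α}, if h : ∃ q : (univ.image (fun p => W p β)), (q : Q β) = y j β then
          f s β h.choose else 0
      have hAB : (Matrix.of fun i j => T (Function.update (y j) α (a α (e i)))) = A * B := by
        ext i j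
        have h1 := hT (fun β => ⟨W (i, j) β, hmem (i, j) β⟩)
        have h2 : minor T (fun β => univ.image (fun p => W p β))
            (fun β => ⟨W (i, j) β, hmem (i, j) β⟩) = T (Function.update (y j) α (a α (e i))) := rfl
        rw [h2] at h1
        rw [Matrix.of_apply, h1, Matrix.mul_apply]
        refine Finset.sum_congr rfl fun s _ => ?_
        rw [hf, ← Finset.mul_prod_erase univ _ (Finset.mem_univ α)]
        have hWα : W (i, j) α = a α (e i) := Function.update_self _ _ _
        have hWβ : ∀ β, β ≠ α → W (i, j) β = y j β := fun β hβ => Function.update_of_ne hβ _ _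
        congr 1
        · have hex2 : ∃ q : (univ.image (fun p => W p α)), (q : Q α) = a α (e i) :=
            ⟨⟨W (i, j) α, hmem (i, j) α⟩, hWα⟩
          show _ = dite _ _ _
          rw [dif_pos hex2]
          congr 1
          apply Subtype.ext
          rw [hex2.choose_spec]
          exact hWα
        · show _ = ∏ β : {β : Fin 3 // β ≠ α}, dite _ _ _
          rw [← Finset.prod_subtype (univ.erase α) (by simp)
            (fun β : Fin 3 => if h : ∃ q : (univ.image (fun p => W p β)), (q : Q β) = y j β then
              f s β h.choose else 0)]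
          refine Finset.prod_congr rfl fun β hβ => ?_
          have hβ' := Finset.ne_of_mem_erase hβ
          have hex2 : ∃ q : (univ.image (fun p => W p β)), (q : Q β) = y j β :=
            ⟨⟨W (i, j) β, hmem (i, j) β⟩, hWβ β hβ'⟩
          rw [dif_pos hex2]
          congr 1
          apply Subtype.ext
          rw [hex2.choose_spec]
          exact hWβ β hβ'
      have h5 : (Matrix.of fun i j => T (Function.update (y j) α (a α (e i)))).rank = l := by
        have := Matrix.rank_of_isUnit _ hy
        rw [Fintype.card_fin] at this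
        exact this
      rw [hAB] at h5
      rw [← h5]
      exact (Matrix.rank_mul_le_left A B).trans (Matrix.rank_le_width A)
  · push Not at hbig
    letI := hκ
    refine ⟨fun β => univ.image (a β), ?_, ?_⟩
    · intro β
      exact Finset.card_image_le.trans (by rw [Finset.card_univ]; exact hbig β)
    · apply R1_le_rank
      rintro k ⟨t, ht, hT⟩
      choose f hf using fun s => R1_rank1 hR (ht s)
      have h6 := R1_extend T a c (fun α x => hc α x) k
        (fun s β q => if h : q ∈ univ.image (a β) then f s β ⟨q, h⟩ else 0) ?_ univ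
      · obtain ⟨f', hf'⟩ := h6
        have h7 : SumOf R T k := ⟨fun s x => ∏ β, f' s β (x β), fun s => R1_rank1' hRne _,
          fun x => hf' x fun β hβ => absurd (Finset.mem_univ β) hβ⟩
        by_contra hlt
        exact not_sumOf_of_le_rank hl (not_le.1 hlt) h7
      · intro x hx
        have hmem : ∀ β, x β ∈ univ.image (a β) := by
          intro β
          obtain ⟨i, hi⟩ := hx β
          rw [hi]
          exact Finset.mem_image_of_mem _ (Finset.mem_univ i)
        have h8 := hT (fun β => ⟨x β, hmem β⟩)
        have h9 : minor T (fun β => univ.image (a β)) (fun β => ⟨x β, hmem β⟩) = T x := rfl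
        rw [h9] at h8
        rw [h8]
        refine Finset.sum_congr rfl fun s _ => ?_
        rw [hf]
        refine Finset.prod_congr rfl fun β _ => ?_
        rw [dif_pos (hmem β)]

end Pool.Agent.helper35.MR
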