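import Pool.Agent.helper35.MR.SpecB

set_option autoImplicit false

open Finset

open Pool.Agent.RRank

namespace Pool.Agent.helper35.MR

theorem HV0_prod {K ι : Type} [Field K] [Fintype ι] [DecidableEq ι] (f g : ι → K) (a b : ι)
    (hab : a ≠ b) (h : ∀ i, i ≠ a → i ≠ b → f i = g i) (hm : f a * f b = g a * g b) :
    ∏ i, f i = ∏ i, g i := by
  rw [← Finset.prod_sdiff (Finset.subset_univ ({a, b} : Finset ι)),
    ← Finset.prod_sdiff (Finset.subset_univ ({a, b} : Finset ι)), Finset.prod_pair hab,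
    Finset.prod_pair hab, hm]
  congr 1
  refine Finset.prod_congr rfl fun i hi => ?_
  rw [Finset.mem_sdiff, Finset.mem_insert, Finset.mem_singleton, not_or] at hi
  exact h i hi.2.1 hi.2.2

theorem HV0_unif {K : Type} [Field K] {s : ℕ} (T : Fin s → Fin s → Fin s → Fin s → K)
    (a b : Fin s) (hab : a ≠ b) (p q r : Equiv.Perm (Fin s)) (hp : p = 1 ∨ p = Equiv.swap a b)
    (hq : q = 1 ∨ q = Equiv.swap a b) (hr : r = 1 ∨ r = Equiv.swap a b)
    (hs : Equiv.Perm.sign p * Equiv.Perm.sign q * Equiv.Perm.sign r = -1)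
    (hT : ∀ σ τ ρ : Equiv.Perm (Fin s),
      T a (σ (p a)) (τ (q a)) (ρ (r a)) * T b (σ (p b)) (τ (q b)) (ρ (r b)) =
        T a (σ a) (τ a) (ρ a) * T b (σ b) (τ b) (ρ b)) :
    ∑ σ : Equiv.Perm (Fin s), ∑ τ : Equiv.Perm (Fin s), ∑ ρ : Equiv.Perm (Fin s),
      (((Equiv.Perm.sign σ * Equiv.Perm.sign τ * Equiv.Perm.sign ρ : ℤˣ) : ℤ) : K) *
        ∏ i, T i (σ i) (τ i) (ρ i) = 0 := by
  have hinv : ∀ w : Equiv.Perm (Fin s), (w = 1 ∨ w = Equiv.swap a b) → w * w = 1 := by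
    rintro w (rfl | rfl)
    · rw [one_mul]
    · exact Equiv.swap_mul_self a b
  have hfix : ∀ w : Equiv.Perm (Fin s), (w = 1 ∨ w = Equiv.swap a b) → ∀ i, i ≠ a → i ≠ b →
      w i = i := by
    rintro w (rfl | rfl) i hia hib
    · rfl
    · exact Equiv.swap_apply_of_ne_of_ne hia hib
  have key : ∑ x : Equiv.Perm (Fin s) × Equiv.Perm (Fin s) × Equiv.Perm (Fin s),
      (((Equiv.Perm.sign x.1 * Equiv.Perm.sign x.2.1 * Equiv.Perm.sign x.2.2 : ℤˣ) : ℤ) : K) *
        ∏ i, T i (x.1 i) (x.2.1 i) (x.2.2 i) = 0 := by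
    refine Finset.sum_involution (fun x _ => (x.1 * p, x.2.1 * q, x.2.2 * r)) ?_ ?_ ?_ ?_
    · intro x _
      have h1 : ∏ i, T i ((x.1 * p) i) ((x.2.1 * q) i) ((x.2.2 * r) i) =
          ∏ i, T i (x.1 i) (x.2.1 i) (x.2.2 i) := by
        refine HV0_prod _ _ a b hab ?_ ?_
        · intro i hia hib
          rw [Equiv.Perm.mul_apply, Equiv.Perm.mul_apply, Equiv.Perm.mul_apply, hfix p hp i hia hib,
            hfix q hq i hia hib, hfix r hr i hia hib]
        · exact hT x.1 x.2.1 x.2.2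
      have h2 : Equiv.Perm.sign (x.1 * p) * Equiv.Perm.sign (x.2.1 * q) *
          Equiv.Perm.sign (x.2.2 * r) =
          -(Equiv.Perm.sign x.1 * Equiv.Perm.sign x.2.1 * Equiv.Perm.sign x.2.2) := by
        rw [Equiv.Perm.sign_mul, Equiv.Perm.sign_mul, Equiv.Perm.sign_mul]
        rw [show Equiv.Perm.sign x.1 * Equiv.Perm.sign p * (Equiv.Perm.sign x.2.1 *
          Equiv.Perm.sign q) * (Equiv.Perm.sign x.2.2 * Equiv.Perm.sign r) =
          (Equiv.Perm.sign x.1 * Equiv.Perm.sign x.2.1 * Equiv.Perm.sign x.2.2) *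
          (Equiv.Perm.sign p * Equiv.Perm.sign q * Equiv.Perm.sign r) by
            simp only [mul_comm, mul_left_comm], hs, mul_neg_one]
      show (((Equiv.Perm.sign x.1 * Equiv.Perm.sign x.2.1 * Equiv.Perm.sign x.2.2 : ℤˣ) : ℤ) : K) *
        ∏ i, T i (x.1 i) (x.2.1 i) (x.2.2 i) +
        (((Equiv.Perm.sign (x.1 * p) * Equiv.Perm.sign (x.2.1 * q) *
          Equiv.Perm.sign (x.2.2 * r) : ℤˣ) : ℤ) : K) *
        ∏ i, T i ((x.1 * p) i) ((x.2.1 * q) i) ((x.2.2 * r) i) = 0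
      rw [h1, h2, Units.val_neg, Int.cast_neg]
      ring
    · intro x _ _ hx
      have e1 : x.1 * p = x.1 := congrArg Prod.fst hx
      have e2 : x.2.1 * q = x.2.1 := congrArg (fun y => y.2.1) hx
      have e3 : x.2.2 * r = x.2.2 := congrArg (fun y => y.2.2) hx
      rw [mul_eq_left] at e1 e2 e3
      rw [e1, e2, e3, Equiv.Perm.sign_one, mul_one, mul_one] at hs
      exact absurd hs (by decide)
    · intro x _
      exact Finset.mem_univ _
    · intro x _
      show (x.1 * p * p, x.2.1 * q * q, x.2.2 * r * r) = x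
      rw [mul_assoc, hinv p hp, mul_one, mul_assoc, hinv q hq, mul_one, mul_assoc, hinv r hr,
        mul_one]
  rw [Fintype.sum_prod_type] at key
  rw [← key]
  refine Finset.sum_congr rfl fun σ _ => ?_
  rw [Fintype.sum_prod_type]

theorem HV0 : HV0_stmt := by
  classical
  intro K _ s N hN t ht
  have hexp : hyp s (fun i j k m => ∑ n, t n i j k m) id id id id =
      ∑ c : Fin s → Fin N, ∑ σ : Equiv.Perm (Fin s), ∑ τ : Equiv.Perm (Fin s),
        ∑ ρ : Equiv.Perm (Fin s),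
        (((Equiv.Perm.sign σ * Equiv.Perm.sign τ * Equiv.Perm.sign ρ : ℤˣ) : ℤ) : K) *
          ∏ i, t (c i) i (σ i) (τ i) (ρ i) := by
    unfold hyp
    symm
    rw [Finset.sum_comm]
    refine Finset.sum_congr rfl fun σ _ => ?_
    rw [Finset.sum_comm]
    refine Finset.sum_congr rfl fun τ _ => ?_
    rw [Finset.sum_comm]
    refine Finset.sum_congr rfl fun ρ _ => ?_
    rw [← Finset.mul_sum]
    congr 1
    symm
    rw [Finset.prod_univ_sum, Fintype.piFinset_univ]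
    rfl
  rw [hexp]
  refine Finset.sum_eq_zero fun c _ => ?_
  obtain ⟨a, b, hab, hc⟩ := Fintype.exists_ne_map_eq_of_card_lt c (by
    rw [Fintype.card_fin, Fintype.card_fin]
    exact hN)
  have sg : Equiv.Perm.sign (Equiv.swap a b) = -1 := Equiv.Perm.sign_swap hab
  have h1 : Equiv.swap a b a = b := Equiv.swap_apply_left a b
  have h2 : Equiv.swap a b b = a := Equiv.swap_apply_right a b
  rcases ht (c a) with ⟨α, β, h⟩ | ⟨α, β, h⟩ | ⟨α, β, h⟩ | ⟨α, β, h⟩
  · refine HV0_unif (fun i j k m => t (c i) i j k m) a b hab (Equiv.swap a b) (Equiv.swap a b)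
      (Equiv.swap a b) (Or.inr rfl) (Or.inr rfl) (Or.inr rfl) (by rw [sg]; decide) ?_
    intro σ τ ρ
    simp only [← hc, h, h1, h2]
    ring
  · refine HV0_unif (fun i j k m => t (c i) i j k m) a b hab (Equiv.swap a b) 1
      1 (Or.inr rfl) (Or.inl rfl) (Or.inl rfl) (by rw [sg, Equiv.Perm.sign_one]; decide) ?_
    intro σ τ ρ
    simp only [← hc, h, h1, h2, Equiv.Perm.one_apply]
    ring
  · refine HV0_unif (fun i j k m => t (c i) i j k m) a b hab 1 (Equiv.swap a b)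
      1 (Or.inl rfl) (Or.inr rfl) (Or.inl rfl) (by rw [sg, Equiv.Perm.sign_one]; decide) ?_
    intro σ τ ρ
    simp only [← hc, h, h1, h2, Equiv.Perm.one_apply]
    ring
  · refine HV0_unif (fun i j k m => t (c i) i j k m) a b hab 1 1 (Equiv.swap a b)
      (Or.inl rfl) (Or.inl rfl) (Or.inr rfl) (by rw [sg, Equiv.Perm.sign_one]; decide) ?_
    intro σ τ ρ
    simp only [← hc, h, h1, h2, Equiv.Perm.one_apply]
    ring

end Pool.Agent.helper35.MR
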