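import Pool.Agent.helper35.MR.SpecB

set_option autoImplicit false

open Finset

open Pool.Agent.RRank

namespace Pool.Agent.helper35.MR

/-- One function with few values is a function of a colour in `Fin μ`. -/
theorem JC_one (K ι : Type) [Field K] (μ : ℕ) (f : ι → K) (h : Few μ f) :
    ∃ (c : ι → Fin μ) (v : Fin μ → K), ∀ x, f x = v (c x) := by
  classical
  obtain ⟨hfin, hcard⟩ := h
  have hF : Fintype (Set.range f) := hfin.fintype
  have hc : Fintype.card (Set.range f) ≤ Fintype.card (Fin μ) := by
    rw [Fintype.card_fin]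
    rw [← Nat.card_eq_fintype_card]
    exact hcard
  obtain ⟨e⟩ := Function.Embedding.nonempty_of_card_le hc
  refine ⟨fun x => e ⟨f x, x, rfl⟩, fun k => if hk : ∃ y, e y = k then (hk.choose : K) else 0, ?_⟩
  intro x
  have hk : ∃ y, e y = e ⟨f x, x, rfl⟩ := ⟨_, rfl⟩
  have h2 : hk.choose = ⟨f x, x, rfl⟩ := e.injective hk.choose_spec
  simp only [dif_pos hk]
  rw [h2]

theorem JC : JC_stmt := by
  classical
  intro K ι _ J μ φ h
  choose c v hcv using fun j => JC_one K ι μ (φ j) (h j)
  refine ⟨fun x => finFunctionFinEquiv (fun j => c j x),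
    fun j k => v j (finFunctionFinEquiv.symm k j), ?_⟩
  intro j x
  simp only [Equiv.symm_apply_apply]
  exact hcv j x

end Pool.Agent.helper35.MR
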