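import Pool.Agent.helper35.MR.SpecB

set_option autoImplicit false

open Finset

open Pool.Agent.RRank

namespace Pool.Agent.helper35.MR

theorem KER_swap {K : Type} [Field K] {n : ℕ} (A : Fin n → Fin n → K) (u v : Fin n → K) :
    ev2 (fun i j => A j i) v u = ev2 A u v := by
  unfold ev2
  rw [Finset.sum_comm]
  refine Finset.sum_congr rfl fun i _ => Finset.sum_congr rfl fun j _ => ?_
  ring

/-- `ev2` as a bilinear map -/
noncomputable def KER_map {K : Type} [Field K] {n : ℕ} (A : Fin n → Fin n → K) :
    (Fin n → K) →ₗ[K] (Fin n → K) →ₗ[K] K :=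
  LinearMap.mk₂ K (ev2 A)
    (by
      intro u u' v
      unfold ev2
      rw [← Finset.sum_add_distrib]
      refine Finset.sum_congr rfl fun i _ => ?_
      rw [← Finset.sum_add_distrib]
      refine Finset.sum_congr rfl fun j _ => ?_
      simp only [Pi.add_apply]
      ring)
    (by
      intro c u v
      unfold ev2
      rw [Finset.smul_sum]
      refine Finset.sum_congr rfl fun i _ => ?_
      rw [Finset.smul_sum]
      refine Finset.sum_congr rfl fun j _ => ?_
      simp only [Pi.smul_apply, smul_eq_mul]
      ring)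
    (by
      intro u v v'
      unfold ev2
      rw [← Finset.sum_add_distrib]
      refine Finset.sum_congr rfl fun i _ => ?_
      rw [← Finset.sum_add_distrib]
      refine Finset.sum_congr rfl fun j _ => ?_
      simp only [Pi.add_apply]
      ring)
    (by
      intro c u v
      unfold ev2
      rw [Finset.smul_sum]
      refine Finset.sum_congr rfl fun i _ => ?_
      rw [Finset.smul_sum]
      refine Finset.sum_congr rfl fun j _ => ?_
      simp only [Pi.smul_apply, smul_eq_mul]
      ring)

theorem KER_map_apply {K : Type} [Field K] {n : ℕ} (A : Fin n → Fin n → K) (u v : Fin n → K) :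
    KER_map A u v = ev2 A u v := rfl

theorem KER_gen {K : Type} [Field K] {n : ℕ} (A : Fin n → Fin n → K) (e : Fin n → K)
    (he : ∀ u : Fin n → K, (∀ v, ev2 A u v = 0) → ∃ c : K, u = c • e)
    (U V : Submodule K (Fin n → K)) (h : n < Module.finrank K U + Module.finrank K V)
    (hz : ∀ u ∈ U, ∀ v ∈ V, ev2 A u v = 0) : e ∈ U := by
  by_contra hne
  have hinj : Function.Injective ((KER_map A).domRestrict U) := by
    rw [← LinearMap.ker_eq_bot, Submodule.eq_bot_iff]
    intro u hu
    rw [LinearMap.mem_ker, LinearMap.domRestrict_apply] at hu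
    have h1 : ∀ v, ev2 A (u : Fin n → K) v = 0 := by
      intro v
      rw [← KER_map_apply, hu]
      rfl
    obtain ⟨c, hc⟩ := he _ h1
    by_cases hc0 : c = 0
    · have : (u : Fin n → K) = 0 := by rw [hc, hc0, zero_smul]
      exact Subtype.ext this
    · exfalso
      apply hne
      have h2 : e = c⁻¹ • (u : Fin n → K) := by
        rw [hc, smul_smul, inv_mul_cancel₀ hc0, one_smul]
      rw [h2]
      exact U.smul_mem _ u.2
  have h1 := LinearMap.finrank_range_of_inj hinj
  have h2 : LinearMap.range ((KER_map A).domRestrict U) ≤ V.dualAnnihilator := by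
    rintro _ ⟨u, rfl⟩
    rw [Submodule.mem_dualAnnihilator]
    intro v hv
    rw [LinearMap.domRestrict_apply, KER_map_apply]
    exact hz _ u.2 _ hv
  have h4 := Subspace.finrank_add_finrank_dualAnnihilator_eq V
  rw [Module.finrank_fin_fun] at h4
  have h3 := Nat.add_le_add_left (Submodule.finrank_mono h2) (Module.finrank K V)
  rw [h1] at h3
  have h5 := h3.trans (le_of_eq h4)
  omega

theorem KER_single {K : Type} [Field K] {n : ℕ} (A : Fin n → Fin n → K) (u : Fin n → K)
    (j : Fin n) : ev2 A u (Pi.single j 1) = ∑ i, A i j * u i := by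
  unfold ev2
  refine Finset.sum_congr rfl fun i _ => ?_
  rw [Finset.sum_eq_single j]
  · rw [Pi.single_eq_same, mul_one]
  · intro b _ hb
    rw [Pi.single_eq_of_ne hb, mul_zero, mul_zero]
  · intro hj
    exact absurd (Finset.mem_univ j) hj

theorem KER_heU {K : Type} [Field K] {l : ℕ} (u : Fin (l + 1) → K)
    (h : ∀ v, ev2 (fun i j : Fin (l + 1) => if i < j then (1 : K) else 0) u v = 0) :
    ∃ c : K, u = c • (Pi.single (Fin.last l) 1 : Fin (l + 1) → K) := by
  have hP : ∀ j : Fin (l + 1), ∑ i, (if i < j then (1 : K) else 0) * u i = 0 := by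
    intro j
    have := h (Pi.single j 1)
    rw [KER_single] at this
    exact this
  have hu : ∀ j : Fin l, u j.castSucc = 0 := by
    intro j
    have h1 : ∑ i, ((if i < j.succ then (1 : K) else 0) * u i -
        (if i < j.castSucc then (1 : K) else 0) * u i) = 0 := by
      rw [Finset.sum_sub_distrib, hP, hP, sub_zero]
    rw [Finset.sum_eq_single j.castSucc] at h1
    · rw [if_pos (Fin.castSucc_lt_succ), if_neg (lt_irrefl _), one_mul, zero_mul, sub_zero] at h1
      exact h1
    · intro b _ hb
      by_cases hbj : b < j.castSucc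
      · have : b < j.succ := hbj.trans Fin.castSucc_lt_succ
        rw [if_pos hbj, if_pos this, sub_self]
      · have h2 : ¬ b < j.succ := by
          intro h3
          apply hb
          apply Fin.ext
          rw [Fin.lt_def] at h3 hbj
          simp only [Fin.val_succ, Fin.val_castSucc] at h3 hbj ⊢
          omega
        rw [if_neg hbj, if_neg h2, sub_self]
    · intro hj
      exact absurd (Finset.mem_univ _) hj
  refine ⟨u (Fin.last l), ?_⟩
  funext i
  rw [Pi.smul_apply, smul_eq_mul]
  refine Fin.lastCases ?_ (fun j => ?_) i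
  · rw [Pi.single_eq_same, mul_one]
  · rw [hu j, Pi.single_eq_of_ne (Fin.castSucc_lt_last j).ne, mul_zero]

theorem KER_heL {K : Type} [Field K] {l : ℕ} (u : Fin (l + 1) → K)
    (h : ∀ v, ev2 (fun i j : Fin (l + 1) => if j < i then (1 : K) else 0) u v = 0) :
    ∃ c : K, u = c • (Pi.single 0 1 : Fin (l + 1) → K) := by
  have hP : ∀ j : Fin (l + 1), ∑ i, (if j < i then (1 : K) else 0) * u i = 0 := by
    intro j
    have := h (Pi.single j 1)
    rw [KER_single] at this
    exact this
  have hu : ∀ j : Fin l, u j.succ = 0 := by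
    intro j
    have h1 : ∑ i, ((if j.castSucc < i then (1 : K) else 0) * u i -
        (if j.succ < i then (1 : K) else 0) * u i) = 0 := by
      rw [Finset.sum_sub_distrib, hP, hP, sub_zero]
    rw [Finset.sum_eq_single j.succ] at h1
    · rw [if_pos (Fin.castSucc_lt_succ), if_neg (lt_irrefl _), one_mul, zero_mul, sub_zero] at h1
      exact h1
    · intro b _ hb
      by_cases hbj : j.succ < b
      · have : j.castSucc < b := Fin.castSucc_lt_succ.trans hbj
        rw [if_pos hbj, if_pos this, sub_self]
      · have h2 : ¬ j.castSucc < b := by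
          intro h3
          apply hb
          apply Fin.ext
          rw [Fin.lt_def] at h3 hbj
          simp only [Fin.val_succ, Fin.val_castSucc] at h3 hbj ⊢
          omega
        rw [if_neg hbj, if_neg h2, sub_self]
    · intro hj
      exact absurd (Finset.mem_univ _) hj
  refine ⟨u 0, ?_⟩
  funext i
  rw [Pi.smul_apply, smul_eq_mul]
  refine Fin.cases ?_ (fun j => ?_) i
  · rw [Pi.single_eq_same, mul_one]
  · rw [hu j, Pi.single_eq_of_ne (Fin.succ_ne_zero j), mul_zero]

theorem KER : KER_stmt := by
  intro K _ l U V hd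
  refine ⟨fun hz => ⟨?_, ?_⟩, fun hz => ⟨?_, ?_⟩⟩
  · exact KER_gen _ _ KER_heU U V (by omega) hz
  · refine KER_gen (fun i j : Fin (l + 1) => if j < i then (1 : K) else 0) _ KER_heL V U (by omega) ?_
    intro v hv u hu
    exact (KER_swap (fun i j : Fin (l + 1) => if i < j then (1 : K) else 0) u v).trans (hz u hu v hv)
  · exact KER_gen _ _ KER_heL U V (by omega) hz
  · refine KER_gen (fun i j : Fin (l + 1) => if i < j then (1 : K) else 0) _ KER_heU V U (by omega) ?_
    intro v hv u hu
    exact (KER_swap (fun i j : Fin (l + 1) => if j < i then (1 : K) else 0) u v).trans (hz u hu v hv)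

end Pool.Agent.helper35.MR
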