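import Pool.Agent.helper35.MR.SpecA

set_option autoImplicit false

open Finset

namespace Pool.Agent.helper35.MR

open Pool.Agent.RRank

section
variable {ι K : Type} [Fintype ι] [Field K] (M : ι → ι → ι → K)

lemma KT_single [DecidableEq ι] (i j k : ι) :
    ev3 M (Pi.single i 1) (Pi.single j 1) (Pi.single k 1) = M i j k := by
  unfold ev3
  rw [Finset.sum_eq_single i, Finset.sum_eq_single j, Finset.sum_eq_single k]
  · simp
  · intro k' _ hk; simp [Pi.single_apply, hk]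
  · intro h; exact absurd (Finset.mem_univ _) h
  · intro j' _ hj; simp [Pi.single_apply, hj]
  · intro h; exact absurd (Finset.mem_univ _) h
  · intro i' _ hi; simp [Pi.single_apply, hi]
  · intro h; exact absurd (Finset.mem_univ _) h

lemma KT_sub1 (u u' v w : ι → K) : ev3 M (u - u') v w = ev3 M u v w - ev3 M u' v w := by
  unfold ev3
  simp only [← Finset.sum_sub_distrib, Pi.sub_apply]
  refine Finset.sum_congr rfl fun i _ => Finset.sum_congr rfl fun j _ =>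
    Finset.sum_congr rfl fun k _ => by ring

lemma KT_sub2 (u v v' w : ι → K) : ev3 M u (v - v') w = ev3 M u v w - ev3 M u v' w := by
  unfold ev3
  simp only [← Finset.sum_sub_distrib, Pi.sub_apply]
  refine Finset.sum_congr rfl fun i _ => Finset.sum_congr rfl fun j _ =>
    Finset.sum_congr rfl fun k _ => by ring

lemma KT_sub3 (u v w w' : ι → K) : ev3 M u v (w - w') = ev3 M u v w - ev3 M u v w' := by
  unfold ev3
  simp only [← Finset.sum_sub_distrib, Pi.sub_apply]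
  refine Finset.sum_congr rfl fun i _ => Finset.sum_congr rfl fun j _ =>
    Finset.sum_congr rfl fun k _ => by ring

end

lemma KT_prv {n : ℕ} (z₀ : ℤ) (k : Fin n) : kposZ z₀ (prv k) = if (k : ℕ) = 0 then z₀ else
    9 + 2 * ((k : ℕ) : ℤ) := by
  unfold prv
  by_cases h : (k : ℕ) = 0
  · rw [dif_pos h, if_pos h]
    rfl
  · rw [dif_neg h, if_neg h]
    show 11 + 2 * (((k : ℕ) - 1 : ℕ) : ℤ) = _
    rw [Nat.cast_sub (by omega)]
    push_cast
    ring

theorem KT : KT_stmt := by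
  intro K _ V a b c κ h n x₀ y₀ z₀ hx hy hz t ht
  have hn : ∀ s : ℤ, kposXY (n := n) s none = s := fun _ => rfl
  have hsm : ∀ (s : ℤ) (i : Fin n), kposXY s (some i) = 10 + 2 * ((i : ℕ) : ℤ) := fun _ _ => rfl
  have hzn : ∀ s : ℤ, kposZ (n := n) s none = s := fun _ => rfl
  have hzs : ∀ (s : ℤ) (i : Fin n), kposZ s (some i) = 11 + 2 * ((i : ℕ) : ℤ) := fun _ _ => rfl
  -- the difference in the third variable
  have D0 : ∀ k : Fin n, V x₀ y₀ (11 + 2 * ((k : ℕ) : ℤ)) - V x₀ y₀ (kposZ z₀ (prv k)) = 0 := by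
    intro k
    rw [KT_prv]
    by_cases hk : (k : ℕ) = 0
    · rw [if_pos hk, h x₀ y₀ _ (by omega) (by omega), h x₀ y₀ z₀ (by omega) (by omega),
        hy.cmp_eq_lt, hx.cmp_eq_lt, (show x₀ < 11 + 2 * ((k : ℕ) : ℤ) by omega).cmp_eq_lt,
        (show y₀ < 11 + 2 * ((k : ℕ) : ℤ) by omega).cmp_eq_lt]
      have : (x₀ = y₀ ∧ y₀ < 11 + 2 * ((k : ℕ) : ℤ)) = (x₀ = y₀ ∧ y₀ < z₀) := by
        apply propext; omega
      simp only [this]
      ring
    · rw [if_neg hk, h x₀ y₀ _ (by omega) (by omega), h x₀ y₀ _ (by omega) (by omega),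
        (show x₀ < 9 + 2 * ((k : ℕ) : ℤ) by omega).cmp_eq_lt,
        (show y₀ < 9 + 2 * ((k : ℕ) : ℤ) by omega).cmp_eq_lt,
        (show x₀ < 11 + 2 * ((k : ℕ) : ℤ) by omega).cmp_eq_lt,
        (show y₀ < 11 + 2 * ((k : ℕ) : ℤ) by omega).cmp_eq_lt]
      have : (x₀ = y₀ ∧ y₀ < 11 + 2 * ((k : ℕ) : ℤ)) = (x₀ = y₀ ∧ y₀ < 9 + 2 * ((k : ℕ) : ℤ)) := by
        apply propext; omega
      simp only [this]
      ring
  have cmpz : ∀ (f : Ordering → K) (i k : Fin n),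
      f (cmp (10 + 2 * ((i : ℕ) : ℤ)) (11 + 2 * ((k : ℕ) : ℤ))) -
        f (cmp (10 + 2 * ((i : ℕ) : ℤ)) (kposZ z₀ (prv k))) = if i = k then f .lt - f .gt else 0 := by
    intro f i k
    rw [KT_prv]
    rcases lt_trichotomy i k with hik | hik | hik
    · have hik' : (i : ℕ) < (k : ℕ) := hik
      rw [if_neg hik.ne, if_neg (by omega),
        (show 10 + 2 * ((i : ℕ) : ℤ) < 11 + 2 * ((k : ℕ) : ℤ) by omega).cmp_eq_lt,
        (show 10 + 2 * ((i : ℕ) : ℤ) < 9 + 2 * ((k : ℕ) : ℤ) by omega).cmp_eq_lt, sub_self]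
    · subst hik
      rw [if_pos rfl, (show 10 + 2 * ((i : ℕ) : ℤ) < 11 + 2 * ((i : ℕ) : ℤ) by omega).cmp_eq_lt]
      split_ifs
      · rw [(show z₀ < 10 + 2 * ((i : ℕ) : ℤ) by omega).cmp_eq_gt]
      · rw [(show 9 + 2 * ((i : ℕ) : ℤ) < 10 + 2 * ((i : ℕ) : ℤ) by omega).cmp_eq_gt]
    · have hik' : (k : ℕ) < (i : ℕ) := hik
      rw [if_neg hik.ne',
        (show 11 + 2 * ((k : ℕ) : ℤ) < 10 + 2 * ((i : ℕ) : ℤ) by omega).cmp_eq_gt]
      split_ifs
      · rw [(show z₀ < 10 + 2 * ((i : ℕ) : ℤ) by omega).cmp_eq_gt, sub_self]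
      · rw [(show 9 + 2 * ((k : ℕ) : ℤ) < 10 + 2 * ((i : ℕ) : ℤ) by omega).cmp_eq_gt, sub_self]
  have hp1 : ∀ k : Fin n, x₀ < kposZ z₀ (prv k) ∧ y₀ < kposZ z₀ (prv k) := by
    intro k
    rw [KT_prv]
    split_ifs <;> constructor <;> omega
  have hp2 : ∀ i k : Fin n, kposZ z₀ (prv k) ≠ 10 + 2 * ((i : ℕ) : ℤ) := by
    intro i k
    rw [KT_prv]
    split_ifs <;> omega
  have D1 : ∀ i k : Fin n, V (10 + 2 * ((i : ℕ) : ℤ)) y₀ (11 + 2 * ((k : ℕ) : ℤ)) -
      V (10 + 2 * ((i : ℕ) : ℤ)) y₀ (kposZ z₀ (prv k)) = if i = k then c .lt - c .gt else 0 := by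
    intro i k
    rw [h _ _ _ (by omega) (by omega), h _ _ _ (hp2 i k) (hp1 k).2.ne',
      (hp1 k).2.cmp_eq_lt, (show y₀ < 11 + 2 * ((k : ℕ) : ℤ) by omega).cmp_eq_lt,
      if_neg (by omega), if_neg (by omega), ← cmpz c i k]
    ring
  have D2 : ∀ j k : Fin n, V x₀ (10 + 2 * ((j : ℕ) : ℤ)) (11 + 2 * ((k : ℕ) : ℤ)) -
      V x₀ (10 + 2 * ((j : ℕ) : ℤ)) (kposZ z₀ (prv k)) = if j = k then b .lt - b .gt else 0 := by
    intro j k
    rw [h _ _ _ (by omega) (by omega), h _ _ _ (hp1 k).1.ne' (hp2 j k),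
      (hp1 k).1.cmp_eq_lt, (show x₀ < 11 + 2 * ((k : ℕ) : ℤ) by omega).cmp_eq_lt,
      if_neg (by omega), if_neg (by omega), ← cmpz b j k]
    ring
  have D3 : ∀ i j k : Fin n, V (10 + 2 * ((i : ℕ) : ℤ)) (10 + 2 * ((j : ℕ) : ℤ))
      (11 + 2 * ((k : ℕ) : ℤ)) - V (10 + 2 * ((i : ℕ) : ℤ)) (10 + 2 * ((j : ℕ) : ℤ))
      (kposZ z₀ (prv k)) = (if i = k then c .lt - c .gt else 0) +
        (if j = k then b .lt - b .gt else 0) + if i = j ∧ j = k then κ else 0 := by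
    intro i j k
    rw [h _ _ _ (by omega) (by omega), h _ _ _ (hp2 i k) (hp2 j k), ← cmpz c i k, ← cmpz b j k]
    have e : ((if (10 + 2 * ((i : ℕ) : ℤ)) = 10 + 2 * ((j : ℕ) : ℤ) ∧
        10 + 2 * ((j : ℕ) : ℤ) < 11 + 2 * ((k : ℕ) : ℤ) then κ else 0) -
        if (10 + 2 * ((i : ℕ) : ℤ)) = 10 + 2 * ((j : ℕ) : ℤ) ∧
        10 + 2 * ((j : ℕ) : ℤ) < kposZ z₀ (prv k) then κ else 0) =
        if i = j ∧ j = k then κ else 0 := by
      rw [KT_prv]
      by_cases hij : i = j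
      · subst hij
        rcases lt_trichotomy i k with hik | hik | hik
        · have hik' : (i : ℕ) < (k : ℕ) := hik
          rw [if_pos (by omega), if_pos ⟨rfl, by rw [if_neg (by omega)]; omega⟩,
            if_neg (fun h => hik.ne h.2), sub_self]
        · subst hik
          rw [if_pos (by omega), if_neg, if_pos ⟨rfl, rfl⟩, sub_zero]
          rintro ⟨-, h1⟩
          split_ifs at h1 <;> omega
        · have hik' : (k : ℕ) < (i : ℕ) := hik
          rw [if_neg (by omega), if_neg, if_neg (fun h => hik.ne' h.2), sub_zero]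
          rintro ⟨-, h1⟩
          split_ifs at h1 <;> omega
      · have hij' : (i : ℕ) ≠ (j : ℕ) := fun h => hij (Fin.ext h)
        rw [if_neg (by omega), if_neg (by omega), if_neg (fun h => hij h.1), sub_zero]
    linear_combination e
  have S1 : ∀ i : Fin n, V (10 + 2 * ((i : ℕ) : ℤ)) y₀ z₀ = a .gt + b .lt + c .gt := by
    intro i
    rw [h _ _ _ (by omega) (by omega), (show y₀ < 10 + 2 * ((i : ℕ) : ℤ) by omega).cmp_eq_gt,
      hy.cmp_eq_lt, (show z₀ < 10 + 2 * ((i : ℕ) : ℤ) by omega).cmp_eq_gt, if_neg (by omega)]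
    ring
  have S2 : ∀ j : Fin n, V x₀ (10 + 2 * ((j : ℕ) : ℤ)) z₀ = a .lt + b .gt + c .lt := by
    intro j
    rw [h _ _ _ (by omega) (by omega), (show x₀ < 10 + 2 * ((j : ℕ) : ℤ) by omega).cmp_eq_lt,
      hx.cmp_eq_lt, (show z₀ < 10 + 2 * ((j : ℕ) : ℤ) by omega).cmp_eq_gt, if_neg (by omega)]
    ring
  have S3 : ∀ i j : Fin n, V (10 + 2 * ((i : ℕ) : ℤ)) (10 + 2 * ((j : ℕ) : ℤ)) z₀ =
      a (cmp i j) + b .gt + c .gt := by
    intro i j
    rw [h _ _ _ (by omega) (by omega), (show z₀ < 10 + 2 * ((i : ℕ) : ℤ) by omega).cmp_eq_gt,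
      (show z₀ < 10 + 2 * ((j : ℕ) : ℤ) by omega).cmp_eq_gt, if_neg (by omega)]
    have e : cmp (10 + 2 * ((i : ℕ) : ℤ)) (10 + 2 * ((j : ℕ) : ℤ)) = cmp i j := by
      rcases lt_trichotomy i j with hij | hij | hij
      · have hij' : (i : ℕ) < (j : ℕ) := hij
        rw [hij.cmp_eq_lt, (show 10 + 2 * ((i : ℕ) : ℤ) < 10 + 2 * ((j : ℕ) : ℤ) by omega).cmp_eq_lt]
      · subst hij
        rw [cmp_self_eq_eq, cmp_self_eq_eq]
      · have hij' : (j : ℕ) < (i : ℕ) := hij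
        rw [hij.cmp_eq_gt, (show 10 + 2 * ((j : ℕ) : ℤ) < 10 + 2 * ((i : ℕ) : ℤ) by omega).cmp_eq_gt]
    rw [e]
    ring
  refine ⟨?_, ?_, ?_, ?_, ?_, ?_, ?_, ?_⟩
  · rw [ht]
    simp only [bas, basZ, KT_single, hn, hzn]
  · intro i
    rw [ht]
    simp only [bas, basZ, KT_sub1, KT_single, hn, hsm, hzn, S1]
  · intro j
    rw [ht]
    simp only [bas, basZ, KT_sub2, KT_single, hn, hsm, hzn, S2]
  · intro k
    rw [ht]
    simp only [bas, basZ, KT_sub3, KT_single, hn, hzs, D0]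
  · intro i j
    rw [ht]
    simp only [bas, basZ, KT_sub1, KT_sub2, KT_single, hn, hsm, hzn, S1, S2, S3]
    ring
  · intro i k
    rw [ht]
    simp only [bas, basZ, KT_sub1, KT_sub3, KT_single, hn, hsm, hzs]
    linear_combination D1 i k - D0 k
  · intro j k
    rw [ht]
    simp only [bas, basZ, KT_sub2, KT_sub3, KT_single, hn, hsm, hzs]
    linear_combination D2 j k - D0 k
  · intro i j k
    rw [ht]
    simp only [bas, basZ, KT_sub1, KT_sub2, KT_sub3, KT_single, hn, hsm, hzs]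
    linear_combination D3 i j k - D1 i k - D2 j k + D0 k

end Pool.Agent.helper35.MR
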